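import Pool.Agent.Q94.CL.Rank

/-!
# Consequences for the Hodge numbers
-/

open Module

namespace Pool.Agent.Q94.CL

open Pool.Agent.W539.DI

variable {n : ℕ}

/-- The first Chern class has the hard Lefschetz property in the degrees at most `m`:
`c₁ ^ k : H^{p,q} → H^{p+k,q+k}`, `k = n - p - q`, is injective (hence bijective) if
`p + q ≤ m`. -/
def LefUpTo (X : KRing n) (m : ℤ) : Prop :=
  ∀ (p q : ℤ) (k : ℕ), p + q ≤ m → p + q + k = n → ∀ x ∈ X.H (p, q), X.c ^ k * x = 0 → x = 0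

theorem LefUpTo.at {X : KRing n} {m p q : ℤ} (h : LefUpTo X m) (hpq : p + q ≤ m) :
    LefAt X p q := fun j k hk x hx h0 => h (p - j) (q - j) k (by omega) hk x hx h0

variable {X Y : KRing n}

theorem low (Φ : FM X Y) (hΦ : ∀ x, Φ.φ (X.c * x) = Y.c * Φ.φ x) {m : ℤ} (hX : LefUpTo X m)
    (hY : LefUpTo Y m) {p q : ℤ} (hpq : p + q ≤ m) (hn : p + q ≤ n) : X.h p q = Y.h p q :=
  h_eq Φ hΦ (p.toNat + 1) p q (by omega) hn (hX.at hpq) (hY.at hpq)

/-- Reduction to the degrees at most `n`. -/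
theorem reduce {P : ℤ → Prop} (hP : ∀ d, P d → P (2 * n - d))
    (h : ∀ p q : ℤ, p + q ≤ n → P (p + q) → X.h p q = Y.h p q) (p q : ℤ) (hpq : P (p + q)) :
    X.h p q = Y.h p q := by
  by_cases h1 : p + q ≤ n
  · exact h p q h1 hpq
  · obtain ⟨k, hk⟩ := Int.eq_ofNat_of_zero_le (show 0 ≤ p + q - n by omega)
    have e : ∀ Z : KRing n, Z.h p q = Z.h (p - k) (q - k) := by
      intro Z
      have := Z.h_symm (p := p - k) (q := q - k) k (by omega)
      rw [sub_add_cancel, sub_add_cancel] at this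
      exact this.symm
    rw [e X, e Y]
    refine h _ _ (by omega) ?_
    have := hP _ hpq
    convert this using 1
    omega

theorem degree_n (Φ : FM X Y) {p q : ℤ} (hpq : p + q = n)
    (h : ∀ p' q' : ℤ, p' + q' ≤ n - 4 → Even (p' + q' - n) → X.h p' q' = Y.h p' q') :
    X.h p q = Y.h p q := by
  by_cases h1 : p < 0 ∨ q < 0
  · rw [X.h_neg h1, Y.h_neg h1]
  obtain ⟨a, rfl⟩ := Int.eq_ofNat_of_zero_le (show 0 ≤ p by omega)
  obtain ⟨b, rfl⟩ := Int.eq_ofNat_of_zero_le (show 0 ≤ q by omega)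
  have h2 := (Φ.hodge_sums a b (by omega)).2
  have e : ∑ i ∈ Finset.range n, X.h (a - 2 - 2 * i) (b - 2 - 2 * i) =
      ∑ i ∈ Finset.range n, Y.h (a - 2 - 2 * i) (b - 2 - 2 * i) := by
    refine Finset.sum_congr rfl fun i _ => h _ _ (by omega) ⟨-2 - 2 * i, by omega⟩
  rw [e] at h2
  omega

theorem degree_n2 (Φ : FM X Y) {p q : ℤ} (hpq : p + q = n - 2)
    (h : ∀ p' q' : ℤ, p' + q' ≤ n - 4 → Even (p' + q' - n) → X.h p' q' = Y.h p' q') :
    X.h p q = Y.h p q := by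
  by_cases h1 : p < 0 ∨ q < 0
  · rw [X.h_neg h1, Y.h_neg h1]
  obtain ⟨a, rfl⟩ := Int.eq_ofNat_of_zero_le (show 0 ≤ p by omega)
  obtain ⟨b, rfl⟩ := Int.eq_ofNat_of_zero_le (show 0 ≤ q by omega)
  obtain ⟨m, rfl⟩ : ∃ m : ℕ, n = m + 1 := ⟨n - 1, by omega⟩
  have h2 := (Φ.hodge_sums (a + 1) (b + 1) (by omega)).1
  rw [Finset.sum_range_succ', Finset.sum_range_succ'] at h2
  have e : ∑ i ∈ Finset.range m, X.h (((a + 1 : ℕ) : ℤ) - 1 - 2 * ((i + 1 : ℕ) : ℤ))
        (((b + 1 : ℕ) : ℤ) - 1 - 2 * ((i + 1 : ℕ) : ℤ)) =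
      ∑ i ∈ Finset.range m, Y.h (((a + 1 : ℕ) : ℤ) - 1 - 2 * ((i + 1 : ℕ) : ℤ))
        (((b + 1 : ℕ) : ℤ) - 1 - 2 * ((i + 1 : ℕ) : ℤ)) := by
    refine Finset.sum_congr rfl fun i _ => h _ _ (by push_cast at hpq ⊢; omega)
      ⟨-1 - 2 * (i + 1), by push_cast at hpq ⊢; omega⟩
  rw [e] at h2
  have h3 := Nat.add_left_cancel h2
  have ea : ((a + 1 : ℕ) : ℤ) - 1 - 2 * ((0 : ℕ) : ℤ) = a := by push_cast; ring
  have eb : ((b + 1 : ℕ) : ℤ) - 1 - 2 * ((0 : ℕ) : ℤ) = b := by push_cast; ring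
  rw [ea, eb] at h3
  exact h3

theorem degree_n1 (Φ : FM X Y) {p q : ℤ} (hpq : p + q = n - 1)
    (h : ∀ p' q' : ℤ, p' + q' ≤ n - 3 → X.h p' q' = Y.h p' q') : X.h p q = Y.h p q := by
  classical
  by_cases h1 : p < 0 ∨ q < 0
  · rw [X.h_neg h1, Y.h_neg h1]
  have hs := Φ.total_all p q (Finset.Icc (-(n : ℤ) - 2) (n + 2)) (by
    intro k hk
    rw [Finset.mem_Icc] at hk
    omega)
  set f : ℤ → ℤ := fun k => (X.h (p + k) (q + k) : ℤ) - Y.h (p + k) (q + k) with hf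
  have hsum : ∑ k ∈ Finset.Icc (-(n : ℤ) - 2) (n + 2), f k = 0 := by
    rw [hf, Finset.sum_sub_distrib, sub_eq_zero]
    exact_mod_cast hs
  have hzero : ∀ k ∈ Finset.Icc (-(n : ℤ) - 2) (n + 2), k ∉ ({0, 1} : Finset ℤ) → f k = 0 := by
    intro k _ hk
    rw [Finset.mem_insert, Finset.mem_singleton] at hk
    rcases lt_or_ge k 0 with h2 | h2
    · simp only [hf]
      rw [h (p + k) (q + k) (by omega), sub_self]
    · obtain ⟨j, rfl⟩ := Int.eq_ofNat_of_zero_le h2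
      have e : ∀ Z : KRing n, Z.h (p + j) (q + j) = Z.h (p - j + 1) (q - j + 1) := by
        intro Z
        have := Z.h_symm (p := p - j + 1) (q := q - j + 1) (2 * j - 1) (by omega)
        rw [this]
        congr 1 <;> omega
      simp only [hf]
      rw [e X, e Y, h (p - j + 1) (q - j + 1) (by omega), sub_self]
  rw [← Finset.sum_subset (s₁ := {0, 1}) (by
    intro k hk
    rw [Finset.mem_insert, Finset.mem_singleton] at hk
    rw [Finset.mem_Icc]
    omega) hzero, Finset.sum_insert (by simp), Finset.sum_singleton] at hsum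
  have e1 : ∀ Z : KRing n, Z.h (p + 1) (q + 1) = Z.h p q := by
    intro Z
    have := Z.h_symm (p := p) (q := q) 1 (by push_cast; omega)
    rw [this]
    push_cast
    rfl
  have e0 : f 1 = f 0 := by
    simp only [hf]
    rw [e1 X, e1 Y, add_zero, add_zero]
  have e2 : f 0 = (X.h p q : ℤ) - Y.h p q := by simp only [hf]; rw [add_zero, add_zero]
  omega

/-- If `c₁` has the Lefschetz property in the degrees at most `n - 4`, the Hodge numbers with
`p + q` congruent to `n` modulo two are derived invariants. -/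
theorem parity (Φ : FM X Y) (hΦ : ∀ x, Φ.φ (X.c * x) = Y.c * Φ.φ x) (hX : LefUpTo X (n - 4))
    (hY : LefUpTo Y (n - 4)) (p q : ℤ) (hpq : Even (p + q - n)) : X.h p q = Y.h p q := by
  refine reduce (P := fun d => Even (d - n)) ?_ ?_ p q hpq
  · rintro d ⟨r, hr⟩
    exact ⟨-r, by omega⟩
  · rintro p q hn ⟨r, hr⟩
    have h4 : ∀ p' q' : ℤ, p' + q' ≤ n - 4 → Even (p' + q' - n) → X.h p' q' = Y.h p' q' :=
      fun p' q' h' _ => low Φ hΦ hX hY h' (by omega)
    by_cases h1 : p + q ≤ n - 4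
    · exact h4 p q h1 ⟨r, hr⟩
    · by_cases h2 : p + q = n - 2
      · exact degree_n2 Φ h2 h4
      · exact degree_n Φ (by omega) h4

/-- The Hodge numbers are determined by those in the degrees at most `n - 3`. -/
theorem all_of (Φ : FM X Y) (h3 : ∀ p q : ℤ, p + q ≤ n - 3 → X.h p q = Y.h p q) (p q : ℤ) :
    X.h p q = Y.h p q := by
  refine reduce (P := fun _ => True) (fun _ _ => trivial) ?_ p q trivial
  intro p q hn _
  by_cases h1 : p + q ≤ n - 3
  · exact h3 p q h1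
  · by_cases h2 : p + q = n - 2
    · exact degree_n2 Φ h2 fun p' q' h' _ => h3 p' q' (by omega)
    · by_cases h4 : p + q = n - 1
      · exact degree_n1 Φ h4 h3
      · exact degree_n Φ (by omega) fun p' q' h' _ => h3 p' q' (by omega)

/-- If `c₁` has the Lefschetz property in the degrees at most `n - 3`, all Hodge numbers are derived
invariants. -/
theorem all (Φ : FM X Y) (hΦ : ∀ x, Φ.φ (X.c * x) = Y.c * Φ.φ x) (hX : LefUpTo X (n - 3))
    (hY : LefUpTo Y (n - 3)) (p q : ℤ) : X.h p q = Y.h p q :=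
  all_of Φ (fun _ _ h' => low Φ hΦ hX hY h' (by omega)) p q

/-- The numbers `h^{0,q}`. -/
theorem edge (Φ : FM X Y) (hΦ : ∀ x, Φ.φ (X.c * x) = Y.c * Φ.φ x) {q : ℕ} (hq : q ≤ n)
    (hX : ∀ x ∈ X.H (0, q), X.c ^ (n - q) * x = 0 → x = 0)
    (hY : ∀ x ∈ Y.H (0, q), Y.c ^ (n - q) * x = 0 → x = 0) : X.h 0 q = Y.h 0 q := by
  have key : ∀ Z : KRing n, (∀ x ∈ Z.H (0, q), Z.c ^ (n - q) * x = 0 → x = 0) →
      LefAt Z 0 q := by
    intro Z hZ j k hk x hx h0
    rcases Nat.eq_zero_or_pos j with rfl | hj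
    · have hk' : k = n - q := by push_cast at hk; omega
      subst hk'
      simp only [Nat.cast_zero, sub_zero] at hx
      exact hZ x hx h0
    · rw [Z.van _ _ (Or.inl (by omega))] at hx
      exact (Submodule.mem_bot ℂ).1 hx
  exact h_eq Φ hΦ 1 0 q (by norm_num) (by omega) (key X hX) (key Y hY)

/-- Dimension five. -/
theorem five {X Y : KRing 5} (Φ : FM X Y) (hΦ : ∀ x, Φ.φ (X.c * x) = Y.c * Φ.φ x)
    (h10 : X.h 1 0 = Y.h 1 0) (hX1 : LefAt X 1 1) (hY1 : LefAt Y 1 1) (hX2 : LefAt X 2 0)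
    (hY2 : LefAt Y 2 0) (p q : ℤ) : X.h p q = Y.h p q := by
  refine all_of Φ (fun p q hpq => ?_) p q
  have h11 := h_eq Φ hΦ 2 1 1 (by norm_num) (by norm_num) hX1 hY1
  have h20 := h_eq Φ hΦ 3 2 0 (by norm_num) (by norm_num) hX2 hY2
  by_cases h1 : p < 0 ∨ q < 0
  · rw [X.h_neg h1, Y.h_neg h1]
  push_cast at hpq
  have hp0 : 0 ≤ p := by omega
  have hq0 : 0 ≤ q := by omega
  have hp2 : p ≤ 2 := by omega
  have hq2 : q ≤ 2 := by omega
  interval_cases p <;> interval_cases q <;>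
    first
      | (exfalso; omega)
      | (rw [X.h00, Y.h00])
      | exact h10
      | exact h11
      | exact h20
      | (rw [X.h_swap, Y.h_swap]; exact h10)
      | (rw [X.h_swap, Y.h_swap]; exact h20)

end Pool.Agent.Q94.CL
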