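import Pool.Agent.W539.DI.Cor

/-!
# The first Chern class as a nilpotent operator on the columns `p - q = const`
-/

open Module

namespace Pool.Agent.Q94.CL

open Pool.Agent.W539.DI

variable {n : ℕ}

/-- The map `x ↦ c₁ ^ s x`. -/
noncomputable def cp (X : KRing n) (s : ℕ) : X.R →ₗ[ℂ] X.R := LinearMap.mulLeft ℂ (X.c ^ s)

/-- The sum of the spaces `H^{p+k,q+k}`. -/
noncomputable def col (X : KRing n) (p q : ℤ) : Submodule ℂ X.R := ⨆ k : ℤ, X.H (p + k, q + k)

/-- All maps `c₁ ^ k : H^{p-j,q-j} → H^{n-q+j,n-p+j}`, `j ≥ 0`, `k = n - p - q + 2 j`, are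
injective. -/
def LefAt (X : KRing n) (p q : ℤ) : Prop :=
  ∀ j k : ℕ, p - j + (q - j) + k = n → ∀ x ∈ X.H (p - j, q - j), X.c ^ k * x = 0 → x = 0

theorem rank_eq {X Y : KRing n} (Φ : FM X Y) (hΦ : ∀ x, Φ.φ (X.c * x) = Y.c * Φ.φ x)
    (p q : ℤ) (s : ℕ) :
    finrank ℂ (Submodule.map (cp X s) (col X p q)) =
      finrank ℂ (Submodule.map (cp Y s) (col Y p q)) := by
  have hs : ∀ (s : ℕ) (x : X.R), Φ.φ (X.c ^ s * x) = Y.c ^ s * Φ.φ x := by
    intro s
    induction s with
    | zero => intro x; simp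
    | succ s ih => intro x; rw [pow_succ, mul_assoc, ih, hΦ, pow_succ, mul_assoc]
  have h1 : Submodule.map (cp Y s) (col Y p q) =
      Submodule.map (Φ.φ : X.R →ₗ[ℂ] Y.R) (Submodule.map (cp X s) (col X p q)) := by
    unfold col
    rw [← Φ.hodge p q, ← Submodule.map_comp, ← Submodule.map_comp]
    congr 1
    ext x
    exact (hs s x).symm
  rw [h1]
  exact (LinearEquiv.finrank_map_eq Φ.φ _).symm

theorem h_bij (X : KRing n) {p q : ℤ} {k : ℕ} (h : p + q + k = n)
    (hi : ∀ x ∈ X.H (p, q), X.c ^ k * x = 0 → x = 0) :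
    Submodule.map (cp X k) (X.H (p, q)) = X.H (p + k, q + k) := by
  apply Submodule.eq_of_le_of_finrank_eq
  · rintro _ ⟨x, hx, rfl⟩
    exact X.pow_mul_mem X.c_mem k hx
  · rw [finrank_map_of_inj (cp X k) (X.H (p, q)) hi]
    exact X.h_symm k h

theorem rank_val (X : KRing n) {p q : ℤ} {s : ℕ} (h : p + q + s = n) (hp : 0 ≤ p) (hq : 0 ≤ q)
    (hX : LefAt X p q) : finrank ℂ (Submodule.map (cp X s) (col X p q)) =
      X.h p q + 2 * ∑ j ∈ Finset.range n, X.h (p - ((j : ℤ) + 1)) (q - ((j : ℤ) + 1)) := by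
  classical
  set N : ℤ → Submodule ℂ X.R := fun k => Submodule.map (cp X s) (X.H (p + k, q + k)) with hN
  have hle : ∀ k, N k ≤ X.H (p + s + k, q + s + k) := by
    rintro k _ ⟨x, hx, rfl⟩
    have := X.pow_mul_mem X.c_mem s hx
    have e : ((p + k + s, q + k + s) : ℤ × ℤ) = (p + s + k, q + s + k) := by
      rw [Prod.mk.injEq]; constructor <;> ring
    rwa [e] at this
  have hind : iSupIndep N := (X.indep (p + s) (q + s)).mono hle
  have hbot : ∀ k : ℤ, k ∉ sm n ∪ ({0} ∪ sp n) → N k = ⊥ := by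
    intro k hk
    rw [Finset.mem_union, Finset.mem_union, Finset.mem_singleton, mem_sp, mem_sm] at hk
    have : X.H (p + k, q + k) = ⊥ := by
      by_cases h1 : p + k < 0 ∨ q + k < 0
      · exact X.van _ _ h1
      · exact X.van_top (by omega)
    rw [hN]
    simp only
    rw [this, Submodule.map_bot]
  have hmap : Submodule.map (cp X s) (col X p q) = ⨆ k ∈ sm n ∪ ({0} ∪ sp n), N k := by
    unfold col
    rw [Submodule.map_iSup]
    apply le_antisymm
    · refine iSup_le fun k => ?_
      by_cases hk : k ∈ sm n ∪ ({0} ∪ sp n)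
      · exact le_iSup₂ (f := fun k (_ : k ∈ sm n ∪ ({0} ∪ sp n)) => N k) k hk
      · have := hbot k hk
        change N k ≤ _
        rw [this]
        exact bot_le
    · exact iSup₂_le fun k _ => le_iSup N k
  have hlow : ∀ j : ℕ, finrank ℂ (N (-(j : ℤ))) = X.h (p - j) (q - j) := by
    intro j
    have h2 : ∀ x ∈ X.H (p - j, q - j), cp X s x = 0 → x = 0 := by
      intro x hx h0
      refine hX j (s + 2 * j) (by push_cast; omega) x hx ?_
      have h0' : X.c ^ s * x = 0 := h0
      rw [show s + 2 * j = 2 * j + s by ring, pow_add, mul_assoc, h0', mul_zero]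
    have := finrank_map_of_inj (cp X s) (X.H (p - j, q - j)) h2
    change finrank ℂ (Submodule.map (cp X s) (X.H (p + -(j : ℤ), q + -(j : ℤ)))) = _
    rw [← sub_eq_add_neg, ← sub_eq_add_neg]
    exact this
  have hhigh : ∀ j : ℕ, finrank ℂ (N (j : ℤ)) = X.h (p - j) (q - j) := by
    intro j
    have h1 := h_bij X (p := p - j) (q := q - j) (k := s + 2 * j) (by push_cast; omega)
      (hX j (s + 2 * j) (by push_cast; omega))
    have h3 : N (j : ℤ) = X.H (p + s + j, q + s + j) := by
      apply le_antisymm (hle j)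
      intro y hy
      have e : ((p - j + ((s + 2 * j : ℕ) : ℤ), q - j + ((s + 2 * j : ℕ) : ℤ)) : ℤ × ℤ) =
          (p + s + j, q + s + j) := by
        rw [Prod.mk.injEq]; constructor <;> (push_cast; ring)
      rw [e] at h1
      rw [← h1] at hy
      obtain ⟨x, hx, rfl⟩ := hy
      refine ⟨X.c ^ (2 * j) * x, ?_, ?_⟩
      · have := X.pow_mul_mem X.c_mem (2 * j) hx
        have e : ((p - j + ((2 * j : ℕ) : ℤ), q - j + ((2 * j : ℕ) : ℤ)) : ℤ × ℤ) =
            (p + j, q + j) := by
          rw [Prod.mk.injEq]; constructor <;> (push_cast; ring)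
        rw [e] at this
        exact this
      · change X.c ^ s * (X.c ^ (2 * j) * x) = X.c ^ (s + 2 * j) * x
        rw [pow_add, mul_assoc]
    rw [h3]
    have h4 := X.h_symm (p := p - j) (q := q - j) (s + 2 * j) (by push_cast; omega)
    have e : ((p - j + ((s + 2 * j : ℕ) : ℤ), q - j + ((s + 2 * j : ℕ) : ℤ)) : ℤ × ℤ) =
        (p + s + j, q + s + j) := by
      rw [Prod.mk.injEq]; constructor <;> (push_cast; ring)
    rw [h4]
    unfold KRing.h
    rw [e]
  rw [hmap, finrank_iSup_finset N hind, Finset.sum_union, Finset.sum_union, Finset.sum_singleton,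
    sum_sm, sum_sp]
  · have e0 : finrank ℂ (N 0) = X.h p q := by simpa using hhigh 0
    have e1 : ∀ j : ℕ, finrank ℂ (N (-((j : ℤ) + 1))) = X.h (p - ((j : ℤ) + 1)) (q - ((j : ℤ) + 1)) := by
      intro j
      have := hlow (j + 1)
      push_cast at this
      exact this
    have e2 : ∀ j : ℕ, finrank ℂ (N ((j : ℤ) + 1)) = X.h (p - ((j : ℤ) + 1)) (q - ((j : ℤ) + 1)) := by
      intro j
      have := hhigh (j + 1)
      push_cast at this
      exact this
    rw [e0, Finset.sum_congr rfl fun j _ => e1 j, Finset.sum_congr rfl fun j _ => e2 j]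
    ring
  · rw [Finset.disjoint_left]
    intro k hk hk2
    rw [Finset.mem_singleton] at hk
    rw [mem_sp] at hk2
    omega
  · rw [Finset.disjoint_left]
    intro k hk hk2
    rw [mem_sm] at hk
    rw [Finset.mem_union, Finset.mem_singleton, mem_sp] at hk2
    omega

theorem LefAt.lower {X : KRing n} {p q : ℤ} (h : LefAt X p q) (i : ℕ) :
    LefAt X (p - i) (q - i) := by
  intro j k hk x hx h0
  have e : ((p - i - j, q - i - j) : ℤ × ℤ) = (p - ((i + j : ℕ) : ℤ), q - ((i + j : ℕ) : ℤ)) := by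
    rw [Prod.mk.injEq]; constructor <;> (push_cast; ring)
  rw [e] at hx
  exact h (i + j) k (by push_cast; omega) x hx h0

/-- The Hodge number `h^{p,q}`, `p + q ≤ n`, is a derived invariant of the varieties for which
`c₁` has the Lefschetz property at `(p, q)`. -/
theorem h_eq {X Y : KRing n} (Φ : FM X Y) (hΦ : ∀ x, Φ.φ (X.c * x) = Y.c * Φ.φ x) :
    ∀ (N : ℕ) (p q : ℤ), p < N → p + q ≤ n → LefAt X p q → LefAt Y p q → X.h p q = Y.h p q := by
  intro N
  induction N with
  | zero =>
    intro p q hp _ _ _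
    rw [X.h_neg (Or.inl (by simpa using hp)), Y.h_neg (Or.inl (by simpa using hp))]
  | succ N ih =>
    intro p q hp hpq hX hY
    by_cases h1 : p < 0 ∨ q < 0
    · rw [X.h_neg h1, Y.h_neg h1]
    obtain ⟨s, hs⟩ := Int.eq_ofNat_of_zero_le (show 0 ≤ (n : ℤ) - p - q by omega)
    have hs' : p + q + s = n := by omega
    have e := rank_eq Φ hΦ p q s
    rw [rank_val X hs' (by omega) (by omega) hX, rank_val Y hs' (by omega) (by omega) hY] at e
    have e2 : ∑ j ∈ Finset.range n, X.h (p - ((j : ℤ) + 1)) (q - ((j : ℤ) + 1)) =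
        ∑ j ∈ Finset.range n, Y.h (p - ((j : ℤ) + 1)) (q - ((j : ℤ) + 1)) := by
      refine Finset.sum_congr rfl fun j _ => ?_
      refine ih _ _ (by push_cast at hp; omega) (by omega) ?_ ?_
      · have := hX.lower (j + 1)
        push_cast at this
        exact this
      · have := hY.lower (j + 1)
        push_cast at this
        exact this
    rw [e2] at e
    omega

end Pool.Agent.Q94.CL
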